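import Pool.Agent.Helper35.SHR.Sheet2

set_option autoImplicit false

namespace SHR
open SHQ
open scoped ENNReal

theorem st_STAR (h1 : ST_VAL) : ST_STAR := by
  intro n z o a b f s
  obtain ⟨_, _, _, _, hsplit⟩ := h1 n o
  constructor
  · unfold SB
    rw [hsplit]
    congr 1
    · simp [fix, ValC]
    · rw [mul_add]
      congr 1
      · rw [← mul_assoc, ← ENNReal.tsum_mul_left]
        refine tsum_congr fun y => ?_
        rw [List.length_cons, List.map_cons, pow_succ']
        show z * z ^ y.length * (wt o s a * ValC o (nx s a) (fix (y.map (lt a b))) f) = _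
        ring
      · rw [← mul_assoc, ← ENNReal.tsum_mul_left]
        refine tsum_congr fun y => ?_
        rw [List.length_cons, List.map_cons, pow_succ']
        show z * z ^ y.length * (wt o s b * ValC o (nx s b) (fix (y.map (lt a b))) f) = _
        ring
  · unfold SJ
    have h := tsum_eq_zero_add' (f := fun j : ℕ => z ^ j * ValC o s (fix (List.replicate j a)) f)
      ENNReal.summable
    refine h.trans ?_
    congr 1
    · simp [fix, ValC]
    · rw [← mul_assoc, ← ENNReal.tsum_mul_left]
      refine tsum_congr fun j => ?_
      rw [List.replicate_succ, pow_succ']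
      show z * z ^ j * (wt o s a * ValC o (nx s a) (fix (List.replicate j a)) f) = _
      ring

end SHR
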